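import Pool.Agent.Run7.h652.TL.Final

/-!
Rational points over global function fields of characteristic `p` on varieties of low degree and low
`p`-weight: common zeros of polynomials `f_j` without constant terms, of degree at most `δ_j`, such
that in all monomials of `f_j` the sum of the base `p` digits of all the exponents is at most `w_j`,
in more than `∑ w_j δ_j` variables.
-/

set_option autoImplicit false

theorem Pool.Agent.Results.MP_d4938b_nt.LowWeightFunctionFields.result
    (p : ℕ) [Fact p.Prime] {F K : Type*} [Field F] [Finite F] [CharP F p]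
    [Field K] [Algebra (RatFunc F) K] [FiniteDimensional (RatFunc F) K]
    {σ τ : Type*} [Fintype σ] [Fintype τ] (f : τ → MvPolynomial σ K) (δ w : τ → ℕ)
    (h0 : ∀ j, MvPolynomial.constantCoeff (f j) = 0)
    (hδ : ∀ j, (f j).totalDegree ≤ δ j)
    (hw : ∀ j, ∀ m ∈ (f j).support, ∑ i, (Nat.digits p (m i)).sum ≤ w j)
    (hn : ∑ j, w j * δ j < Fintype.card σ) :
    ∃ x : σ → K, x ≠ 0 ∧ ∀ j, MvPolynomial.aeval x (f j) = 0 := by
  classical
  have hw' : ∀ j, Run7.h652.TL.WtLE p (f j) (w j) := by
    intro j m hm
    refine le_trans ?_ (hw j m hm)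
    exact Finset.sum_le_sum_of_subset (Finset.subset_univ _)
  obtain ⟨y, hy, hfy⟩ := Run7.h652.TL.main (F := F) p f h0 δ w hδ hw' hn
  exact ⟨y, hy, fun j => hfy j⟩
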