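import Pool.Agent.Run7.h984.WF.Fin

/-!
# The Hasse principle for 100% of the everywhere locally soluble weighted Fano hypersurfaces
over `F_q(t)`, in every characteristic

Let `F` be a finite field. For `n ≥ 3`, `m ≥ 2`, `k ≥ 1` with `m k ≤ n + k` we consider the
hypersurfaces `y ^ m = c_{m-1}(x) y ^ (m-1) + … + c_1(x) y + c_0(x)` of degree `m k` in the weighted
projective space `P(1, …, 1, k)` (coordinates `x_0, …, x_n` of weight one and `y` of weight `k`);
here `c_j` is a form of degree `(m - j) k` over `F[t]`. The condition `m k ≤ n + k` says that these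
hypersurfaces are Fano. They are degree `m` covers of `P ^ n`; the cyclic covers
`y ^ m = c_0(x)` are a special case.

(1) In every characteristic: 100% of the everywhere locally soluble ones have a point over `F(t)`,
and a positive proportion of all of them has a point over `F(t)`.

(2) If the characteristic does not divide `m` the same is true for fixed `c_1, …, c_{m-1}` and
varying `c_0`, uniformly in `c_1, …, c_{m-1}`; with `c_1 = … = c_{m-1} = 0` this is a statement about
cyclic covers.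
-/

set_option autoImplicit false

namespace Pool.Agent.Results.MP_d4938b_nt.WeightedFanoFunctionField

open Polynomial IsDedekindDomain Filter Topology

/-- The coefficient vectors: `c = (c_0, …, c_{m-1})` where `c_j` is a form of degree `(m - j) k` in
`n + 1` variables over `F[t]` whose coefficients have degree at most `(m - j) N / m`. -/
def Coeffs (F : Type*) [Field F] (n m k N : ℕ) : Set (Fin m → MvPolynomial (Fin (n + 1)) F[X]) :=
  {c | ∀ j : Fin m, (c j).IsHomogeneous ((m - (j : ℕ)) * k) ∧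
    ∀ s, m * ((c j).coeff s).natDegree ≤ (m - (j : ℕ)) * N}

/-- The coefficient vectors `c'` with `c'_j = c_j` for `j = 1, …, m - 1`. -/
def Fibre (F : Type*) [Field F] (n m k N : ℕ) (c : Fin m → MvPolynomial (Fin (n + 1)) F[X]) :
    Set (Fin m → MvPolynomial (Fin (n + 1)) F[X]) :=
  {c' | c' ∈ Coeffs F n m k N ∧ ∀ j : Fin m, (j : ℕ) ≠ 0 → c' j = c j}

/-- The hypersurface `y ^ m = ∑_{j < m} c_j(x) y ^ j` has a point over `R`, where `F[t]` maps to `R`
by `φ`. -/
def HasPoint {F : Type*} [Field F] {n m : ℕ} {R : Type*} [CommRing R] (φ : F[X] →+* R)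
    (c : Fin m → MvPolynomial (Fin (n + 1)) F[X]) : Prop :=
  ∃ (x : Fin (n + 1) → R) (y : R), x ≠ 0 ∧
    y ^ m = ∑ j : Fin m, MvPolynomial.eval₂ φ x (c j) * y ^ (j : ℕ)

/-- The embedding of `F[t]` in the completion `F((u))`, `u = 1 / t`, of `F(t)` at infinity:
`t` goes to the inverse of `u`. -/
noncomputable def toInfty (F : Type*) [Field F] : F[X] →+* LaurentSeries F :=
  (Polynomial.aeval (HahnSeries.single (-1 : ℤ) (1 : F)) : F[X] →ₐ[F] LaurentSeries F).toRingHom

/-- The hypersurface has a point over the rational function field `F(t)`. -/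
def HasGlobalPoint {F : Type*} [Field F] {n m : ℕ}
    (c : Fin m → MvPolynomial (Fin (n + 1)) F[X]) : Prop :=
  HasPoint (algebraMap F[X] (RatFunc F)) c

/-- The hypersurface has a point over the completion of `F(t)` at every place: at every maximal
ideal `v` of `F[t]`, and at infinity. -/
def HasLocalPoints {F : Type*} [Field F] {n m : ℕ}
    (c : Fin m → MvPolynomial (Fin (n + 1)) F[X]) : Prop :=
  (∀ v : HeightOneSpectrum F[X],
    HasPoint (algebraMap F[X] (v.adicCompletion (RatFunc F))) c) ∧ HasPoint (toInfty F) c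

section bridge

open Pool.Agent.Run7.h984.WF Pool.Agent.Y716.FF

variable {F : Type*} [Field F] {n m k : ℕ}

theorem isForm_iff (N : ℕ) (hm : 0 < m) (j : ℕ) (f : MvPolynomial (Fin (n + 1)) F[X]) :
    IsForm ((m - j) * k) (cap m N j + 1) f ↔
      f.IsHomogeneous ((m - j) * k) ∧ ∀ s, m * (f.coeff s).natDegree ≤ (m - j) * N := by
  have h1 : ∀ s, (f.coeff s).degree < ((cap m N j + 1 : ℕ) : WithBot ℕ) ↔
      m * (f.coeff s).natDegree ≤ (m - j) * N := by
    intro s
    have h2 : (f.coeff s).degree < ((cap m N j + 1 : ℕ) : WithBot ℕ) ↔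
        (f.coeff s).natDegree ≤ cap m N j :=
      ⟨fun h => natDegree_le_of_degree_lt h, fun h => degree_lt_of_natDegree_le h⟩
    rw [h2]
    unfold cap
    rw [Nat.le_div_iff_mul_le hm, mul_comm]
  constructor
  · rintro ⟨h2, h3⟩
    exact ⟨h2, fun s => (h1 s).mp (h3 s)⟩
  · rintro ⟨h2, h3⟩
    exact ⟨h2, fun s => (h1 s).mpr (h3 s)⟩

theorem mem_coeffs [Finite F] (N : ℕ) (hm : 0 < m)
    (c : Fin m → MvPolynomial (Fin (n + 1)) F[X]) :
    c ∈ Coeffs F n m k N ↔ c ∈ Tup F (Fin (n + 1)) m k N := by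
  rw [mem_Tup]
  exact forall_congr' fun j => (isForm_iff N hm j (c j)).symm

theorem hasPoint_iff (hm : 0 < m) {R : Type*} [CommRing R] (φ : F[X] →+* R)
    (c : Fin m → MvPolynomial (Fin (n + 1)) F[X]) :
    HasPoint φ c ↔ PtW φ m (c ⟨0, hm⟩) (toC c) := by
  unfold HasPoint PtW
  refine exists_congr fun x => exists_congr fun y => and_congr_right fun _ => ?_
  have h1 : EqW φ m (c ⟨0, hm⟩) (toC c) x y =
      (∑ j : Fin m, MvPolynomial.eval₂ φ x (c j) * y ^ (j : ℕ)) - y ^ m := by
    unfold EqW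
    have h2 : (∑ j ∈ Finset.range (m + 1), MvPolynomial.eval₂ φ x (toC c j) * y ^ j) =
        (∑ j : Fin m, MvPolynomial.eval₂ φ x (c j) * y ^ (j : ℕ)) - y ^ m := by
      rw [Finset.sum_range_succ, Finset.sum_range, sub_eq_add_neg]
      congr 1
      · refine Finset.sum_congr rfl fun j _ => ?_
        unfold toC
        rw [dif_pos j.2]
      · unfold toC
        rw [dif_neg (lt_irrefl m)]
        have h4 : (-1 : MvPolynomial (Fin (n + 1)) F[X]) = MvPolynomial.C (-1) := by simp
        rw [h4, MvPolynomial.eval₂_C, map_neg, map_one, neg_one_mul]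
    rw [← h2, Finset.range_eq_Ico, Finset.sum_eq_sum_Ico_succ_bot (Nat.succ_pos m), pow_zero,
      mul_one]
    congr 1
    · unfold toC
      rw [dif_pos hm]
  rw [h1, sub_eq_zero]
  exact eq_comm

theorem local_iff (hm : 0 < m) (c : Fin m → MvPolynomial (Fin (n + 1)) F[X]) :
    HasLocalPoints c ↔ ELSW m (c ⟨0, hm⟩) (toC c) :=
  and_congr (forall_congr' fun _ => hasPoint_iff hm _ c) (hasPoint_iff hm _ c)

theorem toC_hom {N : ℕ} [Finite F] {c : Fin m → MvPolynomial (Fin (n + 1)) F[X]}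
    (hc : c ∈ Tup F (Fin (n + 1)) m k N) (j : ℕ) (h1 : 1 ≤ j) (h2 : j ≤ m) :
    (toC c j).IsHomogeneous ((m - j) * k) := ((lowC_toC hc).form j h1 h2).1

theorem zero_hom {N : ℕ} [Finite F] (hm : 0 < m)
    {c : Fin m → MvPolynomial (Fin (n + 1)) F[X]} (hc : c ∈ Tup F (Fin (n + 1)) m k N) :
    IsForm (m * k) (N + 1) (c ⟨0, hm⟩) := by
  have := (mem_Tup.mp hc) ⟨0, hm⟩
  simpa [cap_zero hm] using this

theorem global_iff {N : ℕ} [Finite F] (hm : 0 < m) (hk : 1 ≤ k)
    {c : Fin m → MvPolynomial (Fin (n + 1)) F[X]} (hc : c ∈ Tup F (Fin (n + 1)) m k N) :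
    HasGlobalPoint c ↔ SolW (PsiL m (toC c)) (c ⟨0, hm⟩) := by
  unfold HasGlobalPoint
  rw [hasPoint_iff hm]
  exact solW_iff hk (zero_hom hm hc).1 (toC_hom hc)

theorem global_local {N : ℕ} [Finite F] (hm : 0 < m) (hk : 1 ≤ k)
    {c : Fin m → MvPolynomial (Fin (n + 1)) F[X]} (hc : c ∈ Tup F (Fin (n + 1)) m k N)
    (h : HasGlobalPoint c) : HasLocalPoints c := by
  rw [local_iff hm]
  exact ptW_elsW hk (zero_hom hm hc).1 (toC_hom hc) ((hasPoint_iff hm _ c).mp h)

theorem local_approx {N : ℕ} [Finite F] (hm : 0 < m)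
    {c : Fin m → MvPolynomial (Fin (n + 1)) F[X]} (hc : c ∈ Tup F (Fin (n + 1)) m k N)
    (h : HasLocalPoints c) :
    LocSolW N (PsiL m (toC c)) (PsiT m N (toC c)) (c ⟨0, hm⟩) :=
  elsW_locSolW hm (zero_hom hm hc) (lowC_toC hc) ((local_iff hm c).mp h)

/-- from few exceptions to the comparison of the global and the local count -/
theorem compare {a b T ε δ ex : ℝ} (hab : a ≤ b) (hba : b ≤ a + ex) (hex : ex ≤ ε * δ * T)
    (hδ : 0 < δ) (hε : 0 < ε) (hT : 0 < T) (hpos : δ * T ≤ a) : (1 - ε) * b ≤ a := by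
  have h1 : ex ≤ ε * a := by
    calc ex ≤ ε * δ * T := hex
      _ = ε * (δ * T) := by ring
      _ ≤ ε * a := mul_le_mul_of_nonneg_left hpos hε.le
  have h2 : 0 < a := lt_of_lt_of_le (mul_pos hδ hT) hpos
  nlinarith

theorem ratio {a b : ℕ → ℝ} (hab : ∀ N, a N ≤ b N)
    (ha : ∀ᶠ N in atTop, 0 < a N)
    (h : ∀ ε : ℝ, 0 < ε → ∀ᶠ N in atTop, (1 - ε) * b N ≤ a N) :
    Tendsto (fun N => a N / b N) atTop (𝓝 1) := by
  rw [Metric.tendsto_atTop]
  intro δ hδ
  have h1 := (h (δ / 2) (by positivity)).and ha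
  rw [eventually_atTop] at h1
  obtain ⟨N₀, hN₀⟩ := h1
  refine ⟨N₀, fun N hN => ?_⟩
  obtain ⟨h2, h3⟩ := hN₀ N hN
  have h4 : 0 < b N := lt_of_lt_of_le h3 (hab N)
  rw [Real.dist_eq]
  have h5 : a N / b N - 1 = -((b N - a N) / b N) := by field_simp; ring
  rw [h5, abs_neg, abs_of_nonneg (div_nonneg (by linarith [hab N]) h4.le), div_lt_iff₀ h4]
  nlinarith [hab N]

end bridge

open Pool.Agent.Run7.h984.WF Pool.Agent.Y716.FF in
open scoped Classical in
theorem part_one (F : Type*) [Field F] [Finite F] (n m k : ℕ) (hn : 3 ≤ n) (hm : 2 ≤ m)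
    (hk : 1 ≤ k) (h : m * k ≤ n + k) :
    (∃ δ : ℝ, 0 < δ ∧ ∀ᶠ N : ℕ in atTop, δ * ((Coeffs F n m k N).ncard : ℝ) ≤
      (({c | c ∈ Coeffs F n m k N ∧ HasGlobalPoint c} : Set _).ncard : ℝ)) ∧
    Tendsto (fun N : ℕ =>
      (({c | c ∈ Coeffs F n m k N ∧ HasGlobalPoint c} : Set _).ncard : ℝ) /
      (({c | c ∈ Coeffs F n m k N ∧ HasLocalPoints c} : Set _).ncard : ℝ)) atTop (𝓝 1) := by
  have hm0 : 0 < m := by omega
  have hcard : Fintype.card (Fin (n + 1)) = n + 1 := Fintype.card_fin _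
  obtain ⟨δ, hδ, N₁, hN₁⟩ := pos_all (F := F) (ι := Fin (n + 1)) m k hm hk
    (by rw [hcard]; omega) (by rw [hcard]; omega)
  have hT : ∀ N, (Coeffs F n m k N) = ↑(Tup F (Fin (n + 1)) m k N) := by
    intro N
    ext c
    rw [mem_coeffs N hm0 c, Finset.mem_coe]
  have hset : ∀ (N : ℕ) (p : (Fin m → MvPolynomial (Fin (n + 1)) F[X]) → Prop),
      ({c | c ∈ Coeffs F n m k N ∧ p c} : Set _).ncard =
        ((Tup F (Fin (n + 1)) m k N).filter p).card := by
    intro N p
    rw [← Set.ncard_coe_finset]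
    congr 1
    ext c
    simp only [Set.mem_ofPred_eq, Finset.coe_filter]
    rw [mem_coeffs N hm0 c]
  have hsol : ∀ N, (Tup F (Fin (n + 1)) m k N).filter (fun c => HasGlobalPoint c) =
      (Tup F (Fin (n + 1)) m k N).filter (fun c =>
        SolW (PsiL m (toC c)) (c ⟨0, by omega⟩)) := by
    intro N
    apply Finset.filter_congr
    intro c hc
    exact global_iff hm0 hk hc
  have hpos : ∀ᶠ N : ℕ in atTop, δ * ((Coeffs F n m k N).ncard : ℝ) ≤
      (({c | c ∈ Coeffs F n m k N ∧ HasGlobalPoint c} : Set _).ncard : ℝ) := by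
    rw [eventually_atTop]
    refine ⟨N₁, fun N hN => ?_⟩
    rw [hset, hsol, hT, Set.ncard_coe_finset]
    exact hN₁ N hN
  have hTpos : ∀ N, 0 < ((Tup F (Fin (n + 1)) m k N).card : ℝ) := by
    intro N
    have : 0 < (Tup F (Fin (n + 1)) m k N).card := Finset.card_pos.mpr ⟨fun _ => 0,
      mem_Tup.mpr fun _ => IsForm.zero⟩
    exact_mod_cast this
  refine ⟨⟨δ, hδ, hpos⟩, ratio ?_ ?_ ?_⟩
  · intro N
    rw [hset, hset]
    refine Nat.cast_le.mpr (Finset.card_le_card ?_)
    intro c hc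
    rw [Finset.mem_filter] at hc ⊢
    exact ⟨hc.1, global_local hm0 hk hc.1 hc.2⟩
  · filter_upwards [hpos] with N h1
    refine lt_of_lt_of_le (mul_pos hδ ?_) h1
    rw [hT, Set.ncard_coe_finset]
    exact hTpos N
  · intro ε hε
    obtain ⟨N₂, hN₂⟩ := exc_all (F := F) (ι := Fin (n + 1)) m k hm hk
      (by rw [hcard]; omega) (by rw [hcard]; omega) (ε := min (ε * δ) 1)
      (lt_min (by positivity) one_pos) (min_le_right _ _)
    rw [eventually_atTop]
    refine ⟨max N₁ N₂, fun N hN => ?_⟩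
    have h1 := hN₁ N ((le_max_left _ _).trans hN)
    have h2 := hN₂ N ((le_max_right _ _).trans hN)
    rw [hset, hset]
    set T := Tup F (Fin (n + 1)) m k N with hTd
    refine compare (T := (T.card : ℝ)) (δ := δ) (ex := ((T.filter (fun c =>
      LocSolW N (PsiL m (toC c)) (PsiT m N (toC c)) (c ⟨0, by omega⟩) ∧
        ¬ SolW (PsiL m (toC c)) (c ⟨0, by omega⟩))).card : ℝ)) ?_ ?_ ?_ hδ hε (hTpos N) ?_
    · refine Nat.cast_le.mpr (Finset.card_le_card ?_)
      intro c hc
      rw [Finset.mem_filter] at hc ⊢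
      exact ⟨hc.1, global_local hm0 hk hc.1 hc.2⟩
    · have h3 : T.filter (fun c => HasLocalPoints c) ⊆ T.filter (fun c => HasGlobalPoint c) ∪
          T.filter (fun c => LocSolW N (PsiL m (toC c)) (PsiT m N (toC c)) (c ⟨0, by omega⟩) ∧
            ¬ SolW (PsiL m (toC c)) (c ⟨0, by omega⟩)) := by
        intro c hc
        rw [Finset.mem_filter] at hc
        rw [Finset.mem_union, Finset.mem_filter, Finset.mem_filter]
        by_cases hs : HasGlobalPoint c
        · left; exact ⟨hc.1, hs⟩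
        · right
          exact ⟨hc.1, local_approx hm0 hc.1 hc.2, fun h4 => hs ((global_iff hm0 hk hc.1).mpr h4)⟩
      have h4 := (Finset.card_le_card h3).trans (Finset.card_union_le _ _)
      exact_mod_cast h4
    · refine h2.trans ?_
      exact mul_le_mul_of_nonneg_right (min_le_left _ _) (hTpos N).le
    · rw [hsol]
      exact h1

open Pool.Agent.Run7.h984.WF Pool.Agent.Y716.FF in
open scoped Classical in
theorem part_two (F : Type*) [Field F] [Finite F] (n m k : ℕ) (hn : 3 ≤ n) (hm : 2 ≤ m)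
    (hk : 1 ≤ k) (h : m * k ≤ n + k) (hmF : (m : F) ≠ 0) :
    (∃ δ : ℝ, 0 < δ ∧ ∀ᶠ N : ℕ in atTop, ∀ c ∈ Coeffs F n m k N,
      δ * ((Fibre F n m k N c).ncard : ℝ) ≤
      (({c' | c' ∈ Fibre F n m k N c ∧ HasGlobalPoint c'} : Set _).ncard : ℝ)) ∧
    ∀ ε : ℝ, 0 < ε → ∀ᶠ N : ℕ in atTop, ∀ c ∈ Coeffs F n m k N,
      (1 - ε) * (({c' | c' ∈ Fibre F n m k N c ∧ HasLocalPoints c'} : Set _).ncard : ℝ) ≤
      (({c' | c' ∈ Fibre F n m k N c ∧ HasGlobalPoint c'} : Set _).ncard : ℝ) := by
  have hm0 : 0 < m := by omega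
  have hcard : Fintype.card (Fin (n + 1)) = n + 1 := Fintype.card_fin _
  obtain ⟨δ, hδ, N₁, hN₁⟩ := sol_positiveW (F := F) (ι := Fin (n + 1)) m k hm hk
    (by rw [hcard]; omega) (by rw [hcard]; omega)
  set z : Fin m := ⟨0, hm0⟩ with hz
  have hmem : ∀ (N : ℕ) (c : Fin m → MvPolynomial (Fin (n + 1)) F[X]), c ∈ Coeffs F n m k N →
      ∀ f ∈ forms F (Fin (n + 1)) (m * k) (N + 1),
        Function.update c z f ∈ Tup F (Fin (n + 1)) m k N := by
    intro N c hc f hf
    rw [mem_coeffs N hm0] at hc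
    rw [mem_Tup] at hc ⊢
    intro j
    by_cases hj : j = z
    · subst hj
      rw [Function.update_self]
      have := mem_forms.mp hf
      simpa [hz, cap_zero hm0] using this
    · rw [Function.update_of_ne hj]
      exact hc j
  have hset : ∀ (N : ℕ) (c : Fin m → MvPolynomial (Fin (n + 1)) F[X]), c ∈ Coeffs F n m k N →
      ∀ (p : (Fin m → MvPolynomial (Fin (n + 1)) F[X]) → Prop),
      ({c' | c' ∈ Fibre F n m k N c ∧ p c'} : Set _).ncard =
        ((forms F (Fin (n + 1)) (m * k) (N + 1)).filter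
          (fun f => p (Function.update c z f))).card := by
    intro N c hc p
    rw [← Set.ncard_coe_finset]
    rw [← Set.ncard_image_of_injective _ (Function.update_injective c z)]
    congr 1
    ext c'
    simp only [Set.mem_ofPred_eq, Set.mem_image, Finset.coe_filter]
    constructor
    · rintro ⟨⟨h1, h2⟩, h3⟩
      have h4 : Function.update c z (c' z) = c' := by
        funext j
        by_cases hj : j = z
        · subst hj; rw [Function.update_self]
        · rw [Function.update_of_ne hj]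
          refine (h2 j ?_).symm
          intro h5
          apply hj
          ext
          exact h5
      refine ⟨c' z, ⟨?_, ?_⟩, h4⟩
      · rw [mem_forms]
        exact zero_hom hm0 ((mem_coeffs N hm0 c').mp h1)
      · rw [h4]; exact h3
    · rintro ⟨f, ⟨h1, h2⟩, rfl⟩
      refine ⟨⟨(mem_coeffs N hm0 _).mpr (hmem N c hc f h1), ?_⟩, h2⟩
      intro j hj
      rw [Function.update_of_ne]
      intro h5
      apply hj
      rw [h5]
  have hall : ∀ (N : ℕ) (c : Fin m → MvPolynomial (Fin (n + 1)) F[X]), c ∈ Coeffs F n m k N →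
      (Fibre F n m k N c).ncard = (forms F (Fin (n + 1)) (m * k) (N + 1)).card := by
    intro N c hc
    have h1 := hset N c hc (fun _ => True)
    simpa using h1
  have hPsi : ∀ (c : Fin m → MvPolynomial (Fin (n + 1)) F[X])
      (f : MvPolynomial (Fin (n + 1)) F[X]),
      PsiL m (toC (Function.update c z f)) = PsiL m (toC c) :=
    fun c f => PsiL_congr (fun j hj _ => toC_update_zero _ c f j hj)
  have hPsiT : ∀ (N : ℕ) (c : Fin m → MvPolynomial (Fin (n + 1)) F[X])
      (f : MvPolynomial (Fin (n + 1)) F[X]),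
      PsiT m N (toC (Function.update c z f)) = PsiT m N (toC c) :=
    fun N c f => PsiT_congr (fun j hj _ => toC_update_zero _ c f j hj)
  have hsol : ∀ (N : ℕ) (c : Fin m → MvPolynomial (Fin (n + 1)) F[X]), c ∈ Coeffs F n m k N →
      (forms F (Fin (n + 1)) (m * k) (N + 1)).filter
        (fun f => HasGlobalPoint (Function.update c z f)) =
      (forms F (Fin (n + 1)) (m * k) (N + 1)).filter
        (fun f => SolW (PsiL m (toC c)) f) := by
    intro N c hc
    apply Finset.filter_congr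
    intro f hf
    have h1 := global_iff hm0 hk (hmem N c hc f hf)
    have h2 : Function.update c z f ⟨0, hm0⟩ = f := Function.update_self _ _ _
    rw [hPsi, h2] at h1
    exact h1
  have hFpos : ∀ N, 0 < ((forms F (Fin (n + 1)) (m * k) (N + 1)).card : ℝ) :=
    fun N => forms_card_pos _ _
  refine ⟨⟨δ, hδ, ?_⟩, ?_⟩
  · rw [eventually_atTop]
    refine ⟨N₁, fun N hN c hc => ?_⟩
    rw [hset N c hc, hsol N c hc, hall N c hc]
    exact hN₁ N hN (toC c) (lowC_toC ((mem_coeffs N hm0 c).mp hc))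
  · intro ε hε
    obtain ⟨N₂, hN₂⟩ := exc_countW (F := F) (ι := Fin (n + 1)) m k hm hmF hk
      (by rw [hcard]; omega) (by rw [hcard]; omega) (ε := min (ε * δ) 1)
      (lt_min (by positivity) one_pos) (min_le_right _ _)
    rw [eventually_atTop]
    refine ⟨max N₁ N₂, fun N hN c hc => ?_⟩
    have hc' := (mem_coeffs N hm0 c).mp hc
    have h1 := hN₁ N ((le_max_left _ _).trans hN) (toC c) (lowC_toC hc')
    have h2 := hN₂ N ((le_max_right _ _).trans hN) (toC c) (lowC_toC hc')
    rw [hset N c hc, hset N c hc]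
    set T := forms F (Fin (n + 1)) (m * k) (N + 1) with hTd
    refine compare (T := (T.card : ℝ)) (δ := δ) (ex := ((T.filter (fun f =>
      LocSolW N (PsiL m (toC c)) (PsiT m N (toC c)) f ∧
        ¬ SolW (PsiL m (toC c)) f)).card : ℝ)) ?_ ?_ ?_ hδ hε (hFpos N) ?_
    · refine Nat.cast_le.mpr (Finset.card_le_card ?_)
      intro f hf
      rw [Finset.mem_filter] at hf ⊢
      exact ⟨hf.1, global_local hm0 hk (hmem N c hc f hf.1) hf.2⟩
    · have h3 : T.filter (fun f => HasLocalPoints (Function.update c z f)) ⊆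
          T.filter (fun f => HasGlobalPoint (Function.update c z f)) ∪
          T.filter (fun f => LocSolW N (PsiL m (toC c)) (PsiT m N (toC c)) f ∧
            ¬ SolW (PsiL m (toC c)) f) := by
        intro f hf
        rw [Finset.mem_filter] at hf
        rw [Finset.mem_union, Finset.mem_filter, Finset.mem_filter]
        have h5 := hmem N c hc f hf.1
        have h2' : Function.update c z f ⟨0, hm0⟩ = f := Function.update_self _ _ _
        by_cases hs : HasGlobalPoint (Function.update c z f)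
        · left; exact ⟨hf.1, hs⟩
        · right
          refine ⟨hf.1, ?_, ?_⟩
          · have h6 := local_approx hm0 h5 hf.2
            rw [hPsi, hPsiT, h2'] at h6
            exact h6
          · intro h4
            apply hs
            rw [global_iff hm0 hk h5, hPsi, h2']
            exact h4
      have h4 := (Finset.card_le_card h3).trans (Finset.card_union_le _ _)
      exact_mod_cast h4
    · refine h2.trans ?_
      exact mul_le_mul_of_nonneg_right (min_le_left _ _) (hFpos N).le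
    · rw [hsol N c hc]
      exact h1

/-- Let `F` be a finite field, `n ≥ 3`, `m ≥ 2`, `k ≥ 1` and `m k ≤ n + k`.

(1) A positive proportion of the hypersurfaces `y ^ m = ∑_{j < m} c_j(x) y ^ j` in `P(1, …, 1, k)`,
ordered by the degrees of their coefficients, has a point over `F(t)`, and the proportion of those
with a point over `F(t)` among those with points over all completions of `F(t)` tends to `1`.

(2) If the characteristic does not divide `m` then both statements hold for the hypersurfaces with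
given `c_1, …, c_{m-1}`, uniformly in `c_1, …, c_{m-1}`. -/
theorem result (F : Type*) [Field F] [Finite F] (n m k : ℕ) (hn : 3 ≤ n) (hm : 2 ≤ m)
    (hk : 1 ≤ k) (h : m * k ≤ n + k) :
    ((∃ δ : ℝ, 0 < δ ∧ ∀ᶠ N : ℕ in atTop, δ * ((Coeffs F n m k N).ncard : ℝ) ≤
      (({c | c ∈ Coeffs F n m k N ∧ HasGlobalPoint c} : Set _).ncard : ℝ)) ∧
    Tendsto (fun N : ℕ =>
      (({c | c ∈ Coeffs F n m k N ∧ HasGlobalPoint c} : Set _).ncard : ℝ) /
      (({c | c ∈ Coeffs F n m k N ∧ HasLocalPoints c} : Set _).ncard : ℝ)) atTop (𝓝 1)) ∧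
    ((m : F) ≠ 0 →
    (∃ δ : ℝ, 0 < δ ∧ ∀ᶠ N : ℕ in atTop, ∀ c ∈ Coeffs F n m k N,
      δ * ((Fibre F n m k N c).ncard : ℝ) ≤
      (({c' | c' ∈ Fibre F n m k N c ∧ HasGlobalPoint c'} : Set _).ncard : ℝ)) ∧
    ∀ ε : ℝ, 0 < ε → ∀ᶠ N : ℕ in atTop, ∀ c ∈ Coeffs F n m k N,
      (1 - ε) * (({c' | c' ∈ Fibre F n m k N c ∧ HasLocalPoints c'} : Set _).ncard : ℝ) ≤
      (({c' | c' ∈ Fibre F n m k N c ∧ HasGlobalPoint c'} : Set _).ncard : ℝ)) :=
  ⟨part_one F n m k hn hm hk h, part_two F n m k hn hm hk h⟩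

end Pool.Agent.Results.MP_d4938b_nt.WeightedFanoFunctionField
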